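import Pool.Agent.Helper86.FS.StartGoals

/-! Project FS (MP_75608d_al), part START: the second moment of the number of special pairs (CH2). -/

set_option linter.unusedVariables false

namespace Pool.Agent.Helper75.FS

open Equiv Pool.Agent.Helper3.AK Pool.Agent.Helper86.FS Finset

variable {n M : ℕ}

/-- the indicator of the event that `w` moves the pair `p` to the special pair `j` -/
noncomputable def chi (c : Pts n M) (i : Fin M × (Fin n × Fin n)) (w : Perm (Fin n)) : ℝ :=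
  if pq c w i.1 = i.2 then 1 else 0

theorem chi_nonneg (c : Pts n M) (i : Fin M × (Fin n × Fin n)) (w : Perm (Fin n)) :
    0 ≤ chi c i w := by
  unfold chi
  split_ifs <;> norm_num

theorem chi_sq (c : Pts n M) (i : Fin M × (Fin n × Fin n)) (w : Perm (Fin n)) :
    chi c i w * chi c i w = chi c i w := by
  unfold chi
  split_ifs <;> norm_num

theorem card_cw (c : Pts n M) (w : Perm (Fin n)) (W : Finset (Fin n × Fin n)) :
    ((cw c w W).card : ℝ) = ∑ i ∈ (univ : Finset (Fin M)) ×ˢ W, chi c i w := by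
  classical
  rw [Finset.sum_product]
  have h1 : ∀ j : Fin M, ∑ p ∈ W, chi c (j, p) w = if pq c w j ∈ W then (1 : ℝ) else 0 := by
    intro j
    have h2 : ∑ p ∈ W, chi c (j, p) w = ∑ p ∈ W, if pq c w j = p then (1 : ℝ) else 0 :=
      Finset.sum_congr rfl fun p _ => rfl
    rw [h2]
    exact Finset.sum_ite_eq W (pq c w j) (fun _ => (1 : ℝ))
  simp only [h1]
  rw [← Finset.sum_filter]
  rw [Finset.sum_const, nsmul_eq_mul, mul_one]
  unfold cw
  congr 2

theorem pq_eq_iff (c : Pts n M) (w : Perm (Fin n)) (j : Fin M) (p : Fin n × Fin n) :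
    pq c w j = p ↔ w p.1 = c (j, false) ∧ w p.2 = c (j, true) := by
  unfold pq
  rw [Prod.ext_iff]
  constructor
  · rintro ⟨h1, h2⟩
    simp only at h1 h2
    rw [← h1, ← h2]
    exact ⟨w.apply_symm_apply _, w.apply_symm_apply _⟩
  · rintro ⟨h1, h2⟩
    simp only
    rw [← h1, ← h2]
    exact ⟨w.symm_apply_apply _, w.symm_apply_apply _⟩

theorem pT_eq {r : ℕ} (κ : Perm (Fin n) → ℝ) (a a' : Fin r ↪ Fin n) (f : Perm (Fin n) → ℝ)
    (hf : ∀ w, (∀ i, w (a i) = a' i) → f w = 1) (hf' : ∀ w, ¬ (∀ i, w (a i) = a' i) → f w = 0) :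
    ∑ w, κ w * f w = pT κ a a' := by
  classical
  unfold pT
  rw [Finset.sum_filter]
  apply Finset.sum_congr rfl
  intro w _
  by_cases h : ∀ i, w (a i) = a' i
  · rw [hf w h, mul_one, if_pos h]
  · rw [hf' w h, mul_zero, if_neg h]

theorem first_moment (κ : Perm (Fin n) → ℝ) (hκ : Qu κ) (c : Pts n M)
    (i : Fin M × (Fin n × Fin n)) (hi : i.2.1 ≠ i.2.2) :
    |∑ w, κ w * chi c i w - 1 / (n.descFactorial 2 : ℝ)| ≤ 1 / (n : ℝ) ^ 10 := by
  obtain ⟨j, p⟩ := i
  simp only at hi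
  have hc : c (j, false) ≠ c (j, true) := by
    intro h
    have := c.injective h
    simp at this
  let a : Fin 2 ↪ Fin n := ⟨![p.1, p.2], by
    intro x y h
    fin_cases x <;> fin_cases y
    · rfl
    · exact absurd h hi
    · exact absurd h.symm hi
    · rfl⟩
  let a' : Fin 2 ↪ Fin n := ⟨![c (j, false), c (j, true)], by
    intro x y h
    fin_cases x <;> fin_cases y
    · rfl
    · exact absurd h hc
    · exact absurd h.symm hc
    · rfl⟩
  have hiff : ∀ w : Perm (Fin n), (∀ i, w (a i) = a' i) ↔ pq c w j = p := by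
    intro w
    rw [pq_eq_iff, Fin.forall_fin_two]
    rfl
  have h1 := pT_eq κ a a' (chi c (j, p)) (fun w h => by
    unfold chi
    rw [if_pos ((hiff w).1 h)]) (fun w h => by
    unfold chi
    rw [if_neg (fun h' => h ((hiff w).2 h'))])
  rw [h1]
  exact hκ.qu 2 (by norm_num) a a'

theorem second_moment (κ : Perm (Fin n) → ℝ) (hκ : Qu κ) (c : Pts n M)
    (i i' : Fin M × (Fin n × Fin n)) (hne : i' ≠ i) :
    ∑ w, κ w * (chi c i w * chi c i' w) ≤
      1 / (n.descFactorial 4 : ℝ) + 1 / (n : ℝ) ^ 10 := by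
  have hpos : (0 : ℝ) ≤ 1 / (n.descFactorial 4 : ℝ) + 1 / (n : ℝ) ^ 10 := by positivity
  by_cases h : ∃ w, pq c w i.1 = i.2 ∧ pq c w i'.1 = i'.2
  · obtain ⟨w0, h1, h2⟩ := h
    have hj : i.1 ≠ i'.1 := by
      intro hj
      apply hne
      refine Prod.ext hj.symm ?_
      rw [← h1, ← h2, hj]
    obtain ⟨j, p⟩ := i
    obtain ⟨j', p'⟩ := i'
    simp only at h1 h2 hj
    have hinj : Function.Injective
        ![(j, false), (j, true), (j', false), (j', true)] := by
      intro x y h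
      fin_cases x <;> fin_cases y <;> simp_all
    let a' : Fin 4 ↪ Fin n :=
      (⟨![(j, false), (j, true), (j', false), (j', true)], hinj⟩ : Fin 4 ↪ Fin M × Bool).trans c
    let a : Fin 4 ↪ Fin n := a'.trans (w0⁻¹).toEmbedding
    have ha : ∀ x, a x = w0⁻¹ (a' x) := fun x => rfl
    have a0 : a' 0 = c (j, false) := rfl
    have a1 : a' 1 = c (j, true) := rfl
    have a2 : a' 2 = c (j', false) := rfl
    have a3 : a' 3 = c (j', true) := rfl
    have e1 : p = (w0⁻¹ (c (j, false)), w0⁻¹ (c (j, true))) := h1.symm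
    have e2 : p' = (w0⁻¹ (c (j', false)), w0⁻¹ (c (j', true))) := h2.symm
    have hiff : ∀ w : Perm (Fin n), (∀ x, w (a x) = a' x) ↔
        (pq c w j = p ∧ pq c w j' = p') := by
      intro w
      rw [pq_eq_iff, pq_eq_iff, e1, e2]
      constructor
      · intro h
        exact ⟨⟨h 0, h 1⟩, ⟨h 2, h 3⟩⟩
      · rintro ⟨⟨h0, h1⟩, ⟨h2, h3⟩⟩ x
        fin_cases x
        · exact h0
        · exact h1
        · exact h2
        · exact h3
    have h3 := pT_eq κ a a' (fun w => chi c (j, p) w * chi c (j', p') w) (fun w h => by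
      unfold chi
      have h4 := (hiff w).1 h
      rw [if_pos h4.1, if_pos h4.2, mul_one]) (fun w h => by
      unfold chi
      by_cases h5 : pq c w j = p
      · have h6 : pq c w j' ≠ p' := fun h7 => h ((hiff w).2 ⟨h5, h7⟩)
        simp only
        rw [if_neg h6, mul_zero]
      · simp only
        rw [if_neg h5, zero_mul])
    rw [h3]
    have h4 := hκ.qu 4 le_rfl a a'
    rw [abs_le] at h4
    linarith [h4.2]
  · have h1 : ∑ w, κ w * (chi c i w * chi c i' w) = 0 := by
      apply Finset.sum_eq_zero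
      intro w _
      unfold chi
      by_cases h5 : pq c w i.1 = i.2
      · have h6 : pq c w i'.1 ≠ i'.2 := fun h7 => h ⟨w, h5, h7⟩
        rw [if_neg h6, mul_zero, mul_zero]
      · rw [if_neg h5, zero_mul, mul_zero]
    rw [h1]
    exact hpos

/-- CH2. -/
theorem ch2 : CH2Stmt := by
  classical
  intro n M κ hn hM hκ c W hW
  have hnr : (8 : ℝ) ≤ n := by exact_mod_cast hn
  have hMr : 8 * (M : ℝ) ≤ n := by exact_mod_cast hM
  have hM0 : (0 : ℝ) ≤ M := Nat.cast_nonneg M
  have hn1 : (0 : ℝ) < (n : ℝ) - 1 := by linarith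
  have hn2 : (0 : ℝ) < (n : ℝ) - 2 := by linarith
  have hn3 : (0 : ℝ) < (n : ℝ) - 3 := by linarith
  have hn0 : (0 : ℝ) < n := by linarith
  have hN2 : ((n.descFactorial 2 : ℕ) : ℝ) = n * (n - 1) := by
    simp only [Nat.descFactorial_succ, Nat.descFactorial_zero, Nat.sub_zero, mul_one]
    push_cast [Nat.cast_sub (show 1 ≤ n by omega)]
    ring
  have hN4 : ((n.descFactorial 4 : ℕ) : ℝ) = n * (n - 1) * (n - 2) * (n - 3) := by
    simp only [Nat.descFactorial_succ, Nat.descFactorial_zero, Nat.sub_zero, mul_one]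
    push_cast [Nat.cast_sub (show 1 ≤ n by omega), Nat.cast_sub (show 2 ≤ n by omega),
      Nat.cast_sub (show 3 ≤ n by omega)]
    ring
  set I := (univ : Finset (Fin M)) ×ˢ W with hI
  set A : ℝ := (M : ℝ) * W.card with hA
  have hIcard : (I.card : ℝ) = A := by
    rw [hI, card_product, card_univ, Fintype.card_fin]
    push_cast
    rfl
  set δ : ℝ := 1 / (n : ℝ) ^ 10 with hδ
  have hδ0 : 0 ≤ δ := by positivity
  set q : ℝ := A / ((n : ℝ) * ((n : ℝ) - 1)) with hq
  have hA0 : 0 ≤ A := by positivity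
  have hq0 : 0 ≤ q := by positivity
  have hWc : (W.card : ℝ) ≤ n * (n - 1) := by
    have h1 : W ⊆ (univ : Finset (Fin n)).offDiag := by
      intro p hp
      rw [mem_offDiag]
      exact ⟨mem_univ _, mem_univ _, hW p hp⟩
    have h2 := card_le_card h1
    rw [offDiag_card, card_univ, Fintype.card_fin] at h2
    have h3 : W.card + n ≤ n * n := by
      have : n ≤ n * n := Nat.le_mul_self n
      omega
    have h4 : ((W.card + n : ℕ) : ℝ) ≤ ((n * n : ℕ) : ℝ) := by exact_mod_cast h3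
    push_cast at h4
    linarith
  have hqM : q ≤ M := by
    rw [hq, div_le_iff₀ (by positivity), hA]
    exact mul_le_mul_of_nonneg_left hWc hM0
  -- the first moment
  set E1 : ℝ := ∑ w, κ w * ((cw c w W).card : ℝ) with hE1
  have hE1' : E1 = ∑ i ∈ I, ∑ w, κ w * chi c i w := by
    rw [hE1, Finset.sum_comm]
    apply Finset.sum_congr rfl
    intro w _
    rw [card_cw, Finset.mul_sum]
  have hfm : ∀ i ∈ I, |∑ w, κ w * chi c i w - 1 / ((n : ℝ) * (n - 1))| ≤ δ := by
    intro i hi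
    have hi2 : i.2 ∈ W := (mem_product.1 hi).2
    have := first_moment κ hκ c i (hW _ hi2)
    rwa [hN2] at this
  have hE1q : |E1 - q| ≤ A * δ := by
    have h1 : E1 - q = ∑ i ∈ I, (∑ w, κ w * chi c i w - 1 / ((n : ℝ) * (n - 1))) := by
      rw [Finset.sum_sub_distrib, ← hE1', Finset.sum_const, nsmul_eq_mul, hIcard, hq]
      ring
    rw [h1]
    refine (Finset.abs_sum_le_sum_abs _ _).trans ?_
    refine (Finset.sum_le_sum hfm).trans ?_
    rw [Finset.sum_const, nsmul_eq_mul, hIcard]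
  -- the second moment
  set E2 : ℝ := ∑ w, κ w * ((cw c w W).card : ℝ) ^ 2 with hE2
  have hE2' : E2 = ∑ i ∈ I, ∑ i' ∈ I, ∑ w, κ w * (chi c i w * chi c i' w) := by
    have h1 : ∀ w, κ w * ((cw c w W).card : ℝ) ^ 2 =
        ∑ i ∈ I, ∑ i' ∈ I, κ w * (chi c i w * chi c i' w) := by
      intro w
      rw [card_cw, sq, Finset.sum_mul_sum, Finset.mul_sum]
      apply Finset.sum_congr rfl
      intro i _
      rw [Finset.mul_sum]
    rw [hE2]
    simp only [h1]
    rw [Finset.sum_comm]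
    apply Finset.sum_congr rfl
    intro i _
    rw [Finset.sum_comm]
  set ρ : ℝ := 1 / ((n : ℝ) * (n - 1) * (n - 2) * (n - 3)) + δ with hρ
  have hρ0 : 0 ≤ ρ := by positivity
  have hE2b : E2 ≤ E1 + A ^ 2 * ρ := by
    have h1 : ∀ i ∈ I, ∑ i' ∈ I, ∑ w, κ w * (chi c i w * chi c i' w) ≤
        ∑ w, κ w * chi c i w + A * ρ := by
      intro i hi
      have h2 : ∀ i' ∈ I, ∑ w, κ w * (chi c i w * chi c i' w) ≤
          (if i' = i then ∑ w, κ w * chi c i w else 0) + ρ := by
        intro i' hi'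
        by_cases h3 : i' = i
        · subst h3
          rw [if_pos rfl]
          simp only [chi_sq]
          linarith
        · rw [if_neg h3, zero_add]
          have := second_moment κ hκ c i i' h3
          rwa [hN4] at this
      refine (Finset.sum_le_sum h2).trans ?_
      rw [Finset.sum_add_distrib, Finset.sum_const, nsmul_eq_mul, hIcard,
        Finset.sum_ite_eq', if_pos hi]
    rw [hE2', hE1']
    refine (Finset.sum_le_sum h1).trans ?_
    rw [Finset.sum_add_distrib, Finset.sum_const, nsmul_eq_mul, hIcard]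
    apply le_of_eq
    ring
  -- conclusion
  have hexp : ∑ w, κ w * (((cw c w W).card : ℝ) - q) ^ 2 = E2 - 2 * q * E1 + q ^ 2 := by
    have h1 : ∀ w, κ w * (((cw c w W).card : ℝ) - q) ^ 2 =
        κ w * ((cw c w W).card : ℝ) ^ 2 - 2 * q * (κ w * ((cw c w W).card : ℝ)) +
          q ^ 2 * κ w := by
      intro w
      ring
    simp only [h1]
    rw [Finset.sum_add_distrib, Finset.sum_sub_distrib, ← Finset.mul_sum, ← Finset.mul_sum,
      hκ.sum, mul_one]
  rw [hexp]
  have hE1a := (abs_le.1 hE1q)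
  have hkey : A ^ 2 * (1 / ((n : ℝ) * (n - 1) * (n - 2) * (n - 3))) - q ^ 2 ≤ q := by
    have h1 : A = q * ((n : ℝ) * (n - 1)) := by
      rw [hq]
      field_simp
    have h2 : A ^ 2 * (1 / ((n : ℝ) * (n - 1) * (n - 2) * (n - 3))) =
        q ^ 2 * ((n : ℝ) * (n - 1) / ((n - 2) * (n - 3))) := by
      rw [h1]
      field_simp
    rw [h2]
    have h3 : (n : ℝ) * (n - 1) / ((n - 2) * (n - 3)) ≤ 1 + 8 / n := by
      rw [div_le_iff₀ (by positivity)]
      have h4 : (1 + 8 / (n : ℝ)) * (((n : ℝ) - 2) * (n - 3)) =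
          ((n : ℝ) - 2) * (n - 3) + 8 * (((n : ℝ) - 2) * (n - 3)) / n := by
        field_simp
      rw [h4]
      have h5 : 4 * (n : ℝ) - 6 ≤ 8 * (((n : ℝ) - 2) * (n - 3)) / n := by
        rw [le_div_iff₀ hn0]
        nlinarith
      nlinarith
    have h6 : q * (8 / (n : ℝ)) ≤ 1 := by
      rw [mul_div_assoc', div_le_one hn0]
      linarith
    calc q ^ 2 * ((n : ℝ) * (n - 1) / ((n - 2) * (n - 3))) - q ^ 2
        ≤ q ^ 2 * (1 + 8 / n) - q ^ 2 := by
          linarith [mul_le_mul_of_nonneg_left h3 (sq_nonneg q)]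
      _ = q * (q * (8 / n)) := by ring
      _ ≤ q * 1 := mul_le_mul_of_nonneg_left h6 hq0
      _ = q := mul_one q
  have hsmall : A * δ + A ^ 2 * δ + 2 * q * (A * δ) ≤ 1 := by
    have hA1 : A ≤ (n : ℝ) ^ 3 / 8 := by
      have h1 : A ≤ M * (n * (n - 1)) := mul_le_mul_of_nonneg_left hWc hM0
      have h2 : (M : ℝ) * (n * (n - 1)) ≤ (n / 8) * (n * n) := by
        apply mul_le_mul (by linarith) _ (by positivity) (by positivity)
        apply mul_le_mul_of_nonneg_left (by linarith) hn0.le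
      calc A ≤ (n / 8) * (n * n) := h1.trans h2
        _ = _ := by ring
    have hq8 : q ≤ (n : ℝ) / 8 := hqM.trans (by linarith)
    have h1n : (1 : ℝ) ≤ n := by linarith
    have p3 : (n : ℝ) ^ 3 ≤ (n : ℝ) ^ 10 := pow_le_pow_right₀ h1n (by norm_num)
    have p6 : (n : ℝ) ^ 6 ≤ (n : ℝ) ^ 10 := pow_le_pow_right₀ h1n (by norm_num)
    have p4 : (n : ℝ) ^ 4 ≤ (n : ℝ) ^ 10 := pow_le_pow_right₀ h1n (by norm_num)
    have hnp : (0 : ℝ) < (n : ℝ) ^ 10 := by positivity
    have hA2 : A ^ 2 ≤ ((n : ℝ) ^ 3 / 8) ^ 2 := pow_le_pow_left₀ hA0 hA1 2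
    have hqA : q * A ≤ (n : ℝ) / 8 * ((n : ℝ) ^ 3 / 8) :=
      mul_le_mul hq8 hA1 hA0 (by positivity)
    have h2 : A * δ + A ^ 2 * δ + 2 * q * (A * δ) = (A + A ^ 2 + 2 * (q * A)) / (n : ℝ) ^ 10 := by
      rw [hδ]
      field_simp
    rw [h2, div_le_one hnp]
    have h3 : ((n : ℝ) ^ 3 / 8) ^ 2 = (n : ℝ) ^ 6 / 64 := by ring
    have h4 : (n : ℝ) / 8 * ((n : ℝ) ^ 3 / 8) = (n : ℝ) ^ 4 / 64 := by ring
    rw [h3] at hA2
    rw [h4] at hqA
    linarith
  have hfin : E2 - 2 * q * E1 + q ^ 2 ≤ q + q + 1 := by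
    have h1 : - (2 * q * E1) ≤ - (2 * q * (q - A * δ)) := by
      have : q - A * δ ≤ E1 := by linarith [hE1a.1]
      have h2 := mul_le_mul_of_nonneg_left this (show 0 ≤ 2 * q by linarith)
      linarith
    have h2 : E1 ≤ q + A * δ := by linarith [hE1a.2]
    have h3 : A ^ 2 * ρ = A ^ 2 * (1 / ((n : ℝ) * (n - 1) * (n - 2) * (n - 3))) + A ^ 2 * δ := by
      rw [hρ]
      ring
    nlinarith
  have hq3 : (M : ℝ) * W.card / ((n : ℝ) * ((n : ℝ) - 1)) = q := rfl
  linarith

end Pool.Agent.Helper75.FS
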